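import Pool.Agent.Y80.KM.ADefs

set_option autoImplicit false

open scoped BigOperators TensorProduct

/-! Project KM (helper80): job TENS. -/

namespace Pool.Agent.Y394.KM

open Pool.Agent.Y80.KM

/-- `X ⊗ a`, the matrix `(X_ij a)` -/
def tens {k A : Type*} [Field k] [NonUnitalNonAssocRing A] [Module k A] {N : ℕ} (X : Sl N k)
    (a : A) : slA k A N :=
  ⟨Matrix.of fun i j => X.1 i j • a, by
    have h : X.1.trace = 0 := X.2
    rw [mem_slA, Matrix.trace]
    simp only [Matrix.diag_apply, Matrix.of_apply]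
    rw [← Finset.sum_smul]
    change X.1.trace • a = 0
    rw [h, zero_smul]⟩

section
variable (k A : Type*) [Field k] [NonUnitalNonAssocRing A] [Module k A] (N : ℕ)

/-- the map `X ⊗ a ↦ (X_ij a)` -/
noncomputable def th : (Sl N k ⊗[k] A) →ₗ[k] slA k A N :=
  TensorProduct.lift (LinearMap.mk₂ k (fun X a => tens X a)
    (fun X Y a => by
      apply Subtype.ext
      ext i j
      exact add_smul _ _ _)
    (fun c X a => by
      apply Subtype.ext
      ext i j
      exact mul_smul _ _ _)
    (fun X a b => by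
      apply Subtype.ext
      ext i j
      exact smul_add _ _ _)
    (fun c X a => by
      apply Subtype.ext
      ext i j
      exact smul_comm _ _ _))

theorem th_tmul (X : Sl N k) (a : A) : th k A N (X ⊗ₜ a) = tens X a := by
  rw [th, TensorProduct.lift.tmul]
  rfl

/-- the matrix `E_ij`, minus `E_00` if `i = j` -/
def tm [NeZero N] (i j : Fin N) : Sl N k :=
  ⟨Matrix.single i j 1 - if i = j then Matrix.single 0 0 1 else 0, by
    change (Matrix.single i j (1 : k) - if i = j then Matrix.single 0 0 1 else 0 :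
      Matrix (Fin N) (Fin N) k).trace = 0
    rw [Matrix.trace_sub]
    by_cases h : i = j
    · subst h
      rw [if_pos rfl, Matrix.trace_single_eq_same, Matrix.trace_single_eq_same, sub_self]
    · rw [if_neg h, Matrix.trace_zero, Matrix.trace_single_eq_of_ne _ _ _ h, sub_zero]⟩

theorem tm_apply [NeZero N] (i j a b : Fin N) : (tm k N i j).1 a b =
    (if i = a ∧ j = b then 1 else 0) - (if i = j ∧ 0 = a ∧ 0 = b then 1 else 0) := by
  change (Matrix.single i j (1 : k) - if i = j then Matrix.single 0 0 1 else 0 :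
    Matrix (Fin N) (Fin N) k) a b = _
  rw [Matrix.sub_apply, Matrix.single_apply]
  by_cases h : i = j
  · rw [if_pos h, Matrix.single_apply]
    simp [h]
  · rw [if_neg h]
    simp [h]

/-- the sum over all entries -/
theorem sum_entry [NeZero N] (M : Matrix (Fin N) (Fin N) A) (hM : M.trace = 0) (a b : Fin N) :
    ∑ i, ∑ j, (tm k N i j).1 a b • M i j = M a b := by
  simp only [tm_apply, sub_smul, Finset.sum_sub_distrib, ite_smul, one_smul, zero_smul]
  have h1 : ∑ i, ∑ j, (if i = a ∧ j = b then M i j else 0) = M a b := by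
    rw [Finset.sum_eq_single a, Finset.sum_eq_single b]
    · simp
    · intro j _ hj
      simp [hj]
    · simp
    · intro i _ hi
      simp [hi]
    · simp
  have h2 : ∑ i, ∑ j, (if i = j ∧ 0 = a ∧ 0 = b then M i j else 0) = 0 := by
    by_cases h : 0 = a ∧ 0 = b
    · have h3 : ∀ i : Fin N, ∑ j, (if i = j ∧ 0 = a ∧ 0 = b then M i j else 0) = M i i := by
        intro i
        obtain ⟨rfl, rfl⟩ := h
        simp
      rw [Finset.sum_congr rfl fun i _ => h3 i]
      exact hM
    · simp [h]
  rw [h1, h2, sub_zero]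

theorem sum_tm [NeZero N] (X : Sl N k) : ∑ i, ∑ j, X.1 i j • tm k N i j = X := by
  apply Subtype.ext
  ext a b
  have h := sum_entry k k N X.1 X.2 a b
  simp only [smul_eq_mul] at h
  rw [← h]
  have h1 : (↑(∑ i, ∑ j, X.1 i j • tm k N i j) : Matrix (Fin N) (Fin N) k) =
      ∑ i, ∑ j, X.1 i j • (tm k N i j).1 := by
    simp
  rw [h1, Matrix.sum_apply]
  refine Finset.sum_congr rfl fun i _ => ?_
  rw [Matrix.sum_apply]
  refine Finset.sum_congr rfl fun j _ => ?_
  rw [Matrix.smul_apply, smul_eq_mul, mul_comm]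

/-- the inverse map -/
noncomputable def thInv [NeZero N] : slA k A N →ₗ[k] Sl N k ⊗[k] A where
  toFun M := ∑ i, ∑ j, tm k N i j ⊗ₜ M.1 i j
  map_add' M M' := by
    simp only [Submodule.coe_add, Matrix.add_apply, TensorProduct.tmul_add, Finset.sum_add_distrib]
  map_smul' c M := by
    simp only [Submodule.coe_smul, Matrix.smul_apply, TensorProduct.tmul_smul, Finset.smul_sum,
      RingHom.id_apply]

end

theorem exists_theta (k A : Type*) [Field k] [NonUnitalNonAssocRing A] [Module k A] (N : ℕ)
    [NeZero N] : ∃ θ : (Sl N k ⊗[k] A) ≃ₗ[k] slA k A N, ∀ X a, θ (X ⊗ₜ a) = tens X a := by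
  refine ⟨LinearEquiv.ofLinearMap (th k A N) (thInv k A N) ?_ ?_, fun X a => th_tmul k A N X a⟩
  · ext M a b
    rw [LinearMap.comp_apply, LinearMap.id_apply]
    have h0 : thInv k A N M = ∑ i, ∑ j, tm k N i j ⊗ₜ M.1 i j := rfl
    rw [h0, map_sum]
    simp only [map_sum, th_tmul]
    have h1 : ((∑ i, ∑ j, tens (tm k N i j) (M.1 i j) : slA k A N) : Matrix (Fin N) (Fin N) A) =
        ∑ i, ∑ j, (tens (tm k N i j) (M.1 i j)).1 := by
      simp
    rw [h1, Matrix.sum_apply, ← sum_entry k A N M.1 ((mem_slA k A _).1 M.2) a b]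
    refine Finset.sum_congr rfl fun i _ => ?_
    rw [Matrix.sum_apply]
    rfl
  · apply TensorProduct.ext'
    intro X a
    rw [LinearMap.comp_apply, LinearMap.id_apply, th_tmul]
    have h0 : thInv k A N (tens X a) = ∑ i, ∑ j, tm k N i j ⊗ₜ (X.1 i j • a) := rfl
    rw [h0]
    conv_rhs => rw [← sum_tm k N X]
    simp only [TensorProduct.sum_tmul, TensorProduct.tmul_smul, TensorProduct.smul_tmul']

end Pool.Agent.Y394.KM
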